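import Mathlib
import Pool.Agent.H592LD.SunThree

set_option autoImplicit false

/-!
# MP_fe1d70_nt, Q2

The determinant of `x + (j+k|p) + (j-k|p) + (j|p) y + (jk|p) w`, `1 ≤ j, k ≤ (p-1)/2`, for a
prime `p = 3 mod 4`, `p > 3`.
-/

namespace Pool.Agent.Results.MP_fe1d70_nt.QTwo

open Matrix Pool.Agent.R945.LD Pool.Agent.H592LD NumberField Module

/-- the determinant `E_p` of the question, with entries in a commutative ring -/
def E (p : ℕ) [Fact p.Prime] {R : Type} [CommRing R] (x y w : R) : R :=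
  Matrix.det (Matrix.of fun j k : Fin ((p - 1) / 2) =>
    x + (legendreSym p (((j : ℤ) + 1) + ((k : ℤ) + 1)) : R)
      + (legendreSym p (((j : ℤ) + 1) - ((k : ℤ) + 1)) : R)
      + (legendreSym p ((j : ℤ) + 1) : R) * y
      + (legendreSym p (((j : ℤ) + 1) * ((k : ℤ) + 1)) : R) * w)

theorem result (p : ℕ) [Fact p.Prime] (hp3 : 3 < p) (hp : p % 4 = 3) :
    ∃ q : ℤ, ∀ (K : Type) [Field K] [NumberField K], finrank ℚ K = 2 →
      (∃ β : K, β ^ 2 = -(p : K)) →
      ∀ (F : Type) [Field F] [CharZero F] (x y w : F),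
      (-1) ^ ((classNumber K + 1) / 2) * E p x y w =
        (p : F) ^ ((p - 3) / 4) * (((p : F) - 1) / 2 * y - 1
          + (2 - (legendreSym p 2 : F)) * (classNumber K : F) * (w + x)
          - (legendreSym p 2 : F) * (16 * (q : F) / (p : F)) * (w * x)) := by
  have hpp : p.Prime := Fact.out
  obtain ⟨m, hm⟩ : ∃ m, p = 2 * m + 1 := by
    rcases hpp.eq_two_or_odd with h | h
    · omega
    · exact ⟨p / 2, by omega⟩
  have hm1 : (p - 1) / 2 = m := by omega
  have hL : ∀ a : ℤ, legendreSym p a = R945.LD.q p (a : ZMod p) := fun a => rfl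
  have hL2 : legendreSym p 2 = R945.LD.q p 2 := by unfold legendreSym; push_cast; rfl
  obtain ⟨r, hr⟩ := sixteen_dvd hp hm (by omega)
  refine ⟨R945.LD.q p 2 * r, ?_⟩
  intro K _ _ h2 ⟨β, hβ⟩ F _ _ x y w
  have hpF : (p : F) ≠ 0 := by exact_mod_cast hpp.ne_zero
  have e : E p x y w = (Matrix.of fun j k : Fin m => x + Bm p m F j k + xv p m F j * y
      + xv p m F j * xv p m F k * w).det := by
    unfold E
    rw [hm1]
    congr 1
    ext j k
    simp only [Matrix.of_apply, Bm, xv, R945.LD.J, hL]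
    push_cast
    rw [q_mul]
    push_cast
    ring
  have hS := half_sum p (by omega) hp m hm K h2 β hβ
  have hSS : SS p m = (2 - R945.LD.q p 2) * (classNumber K : ℤ) := hS
  have hq2 : (R945.LD.q p 2 : ℤ) * R945.LD.q p 2 = 1 := q_sq (two_ne (by omega))
  have hpm : (p : F) = 2 * m + 1 := by
    have := congrArg (Nat.cast : ℕ → F) hm
    push_cast at this; exact this
  -- the sign
  have hodd : classNumber K % 2 = 1 := by
    have hpar : (2 : ℤ) ∣ SS p m - m := by
      have : SS p m - m = ∑ j : Fin m, (xv p m ℤ j - 1) := by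
        rw [Finset.sum_sub_distrib]; simp [SS]
      rw [this]
      apply Finset.dvd_sum
      intro j _
      rcases mul_self_eq_one_iff.mp (xv_sq hm (R := ℤ) j) with h | h <;> rw [h] <;> norm_num
    rw [hSS] at hpar
    rcases mul_self_eq_one_iff.mp hq2 with h | h <;> rw [h] at hpar <;> omega
  obtain ⟨k, hk⟩ : ∃ k, classNumber K = 2 * k + 1 := ⟨classNumber K / 2, by omega⟩
  have hdet := det_B_three hp hm (by omega) (classNumber K) hS
  have hdetF : (Bm p m F).det = (-1) ^ k * (p : F) ^ ((p - 3) / 4) := by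
    rw [← Bm_cast, hdet, hk, show (2 * k + 1 - 1) / 2 = k by omega]
    push_cast
    ring
  rw [e, det_E hp hm, hdetF, hr, hSS, hL2, hk, show (2 * k + 1 + 1) / 2 = k + 1 by omega, hpm]
  have hkk : ((-1 : F)) ^ k * (-1) ^ k = 1 := by
    rw [← pow_add]
    exact Even.neg_one_pow ⟨k, rfl⟩
  have hq2F : ((R945.LD.q p 2 : ℤ) : F) * ((R945.LD.q p 2 : ℤ) : F) = 1 := by
    exact_mod_cast hq2
  push_cast
  have e1 : (-1 : F) ^ (k + 1) * ((-1) ^ k * (2 * (m : F) + 1) ^ ((p - 3) / 4) *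
      (1 - m * y - (2 - ((R945.LD.q p 2 : ℤ) : F)) * (2 * k + 1) * (w + x) +
        16 * (r : F) / (2 * m + 1) * (w * x))) =
      ((-1 : F) ^ k * (-1) ^ k) * ((2 * (m : F) + 1) ^ ((p - 3) / 4) *
      (-(1 - m * y - (2 - ((R945.LD.q p 2 : ℤ) : F)) * (2 * k + 1) * (w + x) +
        16 * (r : F) / (2 * m + 1) * (w * x)))) := by
    rw [pow_succ]
    ring
  rw [e1, hkk, one_mul]
  congr 1
  have e2 : (2 * (m : F) + 1 - 1) / 2 = m := by ring
  rw [e2]
  have e3 : ((R945.LD.q p 2 : ℤ) : F) * (16 * (((R945.LD.q p 2 : ℤ) : F) * (r : F)) / (2 * (m : F) + 1)) =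
      16 * (r : F) / (2 * m + 1) := by
    have : ((R945.LD.q p 2 : ℤ) : F) * (16 * (((R945.LD.q p 2 : ℤ) : F) * (r : F)) / (2 * (m : F) + 1)) =
      (((R945.LD.q p 2 : ℤ) : F) * ((R945.LD.q p 2 : ℤ) : F)) * (16 * (r : F) / (2 * m + 1)) := by ring
    rw [this, hq2F, one_mul]
  rw [e3]
  ring

end Pool.Agent.Results.MP_fe1d70_nt.QTwo
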